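import Pool.Agent.Q116.Inv2.UpperE
import Pool.Agent.Q116.Inv2.LowerE

set_option autoImplicit false

/-!
# The inverse Turán number of paths of even length (MP_69c6fe_co, Q1)

For every `t ≥ 2`: `ex⁻¹(k, P_{2t}) = k² / (2t(t-1)) + o(k²)`.
Here `P_{2t}` is the path with `2t` edges, i.e. `pathGraph (2 * t + 1)`.
-/

namespace Pool.Agent.Results.MP_69c6fe_co.InvTuranEvenPath

open SimpleGraph Filter Asymptotics Q116

/-- The set of numbers of edges of finite graphs `G` all of whose `F`-free subgraphs have less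
than `k` edges, that is, `ex(G, F) < k`. -/
def edgeCounts {W : Type} (F : SimpleGraph W) (k : ℕ) : Set ℕ :=
  {e | ∃ (n : ℕ) (G : SimpleGraph (Fin n)),
    (∀ H : SimpleGraph (Fin n), H ≤ G → F.Free H → H.edgeSet.ncard < k) ∧ G.edgeSet.ncard = e}

/-- The inverse Turán number `ex⁻¹(k, F) = sup {e(G) : ex(G, F) < k}`. -/
noncomputable def invTuran {W : Type} (k : ℕ) (F : SimpleGraph W) : ℕ :=
  sSup (edgeCounts F k)

theorem mem_supp {V : Type} [Fintype V] [DecidableEq V] (G : SimpleGraph V)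
    [DecidableRel G.Adj] (v : V) : v ∈ Inv.supp G ↔ ∃ u, G.Adj v u := by
  simp [Inv.supp]

theorem edgeCounts_le (t k : ℕ) (ht : 2 ≤ t) (e : ℕ)
    (he : e ∈ edgeCounts (pathGraph (2 * t + 1)) k) : e ≤ 8 * k ^ 2 := by
  classical
  obtain ⟨n, G, hG, rfl⟩ := he
  have hG2 : Inv2.SmallE G t k := hG
  have hG' : Inv.Small G (t - 1) k := Inv2.small_of_smallE (by omega) hG2
  have hk : 0 < k := by
    have := hG ⊥ bot_le (by
      rintro ⟨φ⟩
      have h0 : (pathGraph (2 * t + 1)).Adj ⟨0, by omega⟩ ⟨1, by omega⟩ := by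
        rw [pathGraph_adj]; simp
      exact (φ.toHom.map_adj h0))
    omega
  have h1 := Inv.edges_le (t - 1) k 4 (by norm_num) (by omega) hG'
  have h2 : (Finset.univ.filter (fun u => (4 : ℝ) * k ≤ (G.degree u : ℝ))) = ∅ := by
    rw [Finset.filter_eq_empty_iff]
    intro u _
    push Not
    have h3 : G.degree u ≤ 2 * k := by
      refine le_trans ?_ (Inv.supp_card (t := t - 1) (by omega) hG')
      rw [← SimpleGraph.card_neighborFinset_eq_degree]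
      apply Finset.card_le_card
      intro w hw
      rw [SimpleGraph.mem_neighborFinset] at hw
      exact (mem_supp G w).2 ⟨u, hw.symm⟩
    have h4 : (G.degree u : ℝ) ≤ 2 * k := by exact_mod_cast h3
    have h5 : (0 : ℝ) < k := by exact_mod_cast hk
    linarith
  rw [h2] at h1
  have h6 : (G.edgeSet.ncard : ℝ) ≤ 8 * k ^ 2 := by
    refine h1.trans ?_
    simp
    ring_nf
    exact le_refl _
  exact_mod_cast h6

theorem bdd (t k : ℕ) (ht : 2 ≤ t) : BddAbove (edgeCounts (pathGraph (2 * t + 1)) k) :=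
  ⟨8 * k ^ 2, fun e he => edgeCounts_le t k ht e he⟩

theorem turan_mem (t k : ℕ) (ht : 2 ≤ t) (hk : 1 ≤ k) :
    (turanGraph ((k - 1) / (t - 1)) t).edgeFinset.card ∈
      edgeCounts (pathGraph (2 * t + 1)) k := by
  classical
  refine ⟨(k - 1) / (t - 1), turanGraph ((k - 1) / (t - 1)) t, ?_, ?_⟩
  · intro H hH hfree
    have h1 := Inv2.eg_partite H t (by omega) (fun v => ⟨v.val % t, Nat.mod_lt _ (by omega)⟩)
      (fun x y hxy h => by
        have h2 : x.val % t ≠ y.val % t := hH hxy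
        exact h2 (by simpa using congrArg Fin.val h)) hfree
    rw [Fintype.card_fin] at h1
    have h2 : (t - 1) * ((k - 1) / (t - 1)) ≤ k - 1 := Nat.mul_div_le _ _
    omega
  · rw [← SimpleGraph.coe_edgeFinset, Set.ncard_coe_finset]

theorem isGreatest (t k : ℕ) (ht : 2 ≤ t) (hk : 1 ≤ k) :
    IsGreatest (edgeCounts (pathGraph (2 * t + 1)) k) (invTuran k (pathGraph (2 * t + 1))) :=
  ⟨Nat.sSup_mem ⟨_, turan_mem t k ht hk⟩ (bdd t k ht), fun _ he => le_csSup (bdd t k ht) he⟩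

theorem upper (t : ℕ) (ht : 2 ≤ t) (d : ℝ) (hd : 0 < d) (hd1 : d ≤ 1) :
    ∀ᶠ k : ℕ in atTop, (invTuran k (pathGraph (2 * t + 1)) : ℝ) ≤
      (k : ℝ) ^ 2 / (2 * t * (t - 1)) + 10 * d * k ^ 2 := by
  classical
  have htr : (2 : ℝ) ≤ t := by exact_mod_cast ht
  obtain ⟨s, hs⟩ := exists_pow_lt_of_lt_one (show (0 : ℝ) < d / 2 by positivity)
    (show 1 - (d / 4) ^ (t - 1) < 1 by
      have : 0 < (d / 4) ^ (t - 1) := by positivity
      linarith)
  obtain ⟨N1, hN1⟩ := Inv2.tile_packing_on t (by omega) d hd hd1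
  obtain ⟨k0, hk0⟩ := exists_nat_ge ((2 * (t : ℝ) * s + 2 * ((s * (t - 1) : ℕ) : ℝ) +
    2 * ((t - 1 : ℕ) : ℝ) + (N1 : ℝ) ^ 2) / d)
  filter_upwards [eventually_ge_atTop (max k0 1)] with k hk
  have hk1 : 1 ≤ k := le_trans (le_max_right _ _) hk
  have hkk : (k0 : ℝ) ≤ k := by exact_mod_cast le_trans (le_max_left _ _) hk
  have hkr : (1 : ℝ) ≤ k := by exact_mod_cast hk1
  have hdk : 2 * (t : ℝ) * s + 2 * ((s * (t - 1) : ℕ) : ℝ) +
    2 * ((t - 1 : ℕ) : ℝ) + (N1 : ℝ) ^ 2 ≤ d * k := by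
    have := hk0.trans hkk
    rw [div_le_iff₀ hd] at this
    linarith
  have e1 : (0 : ℝ) ≤ 2 * (t : ℝ) * s := by positivity
  have e2 : (0 : ℝ) ≤ 2 * ((s * (t - 1) : ℕ) : ℝ) := by positivity
  have e3 : (0 : ℝ) ≤ 2 * ((t - 1 : ℕ) : ℝ) := by positivity
  have e4 : (0 : ℝ) ≤ (N1 : ℝ) ^ 2 := by positivity
  obtain ⟨n, G, hG, he⟩ := (isGreatest t k ht hk1).1
  rw [← he]
  refine Inv2.main_upper t k ht (by omega) d hd hd1 N1 s hN1 hs.le (by linarith) (by linarith)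
    ?_ G hG
  have e5 : d * (k : ℝ) * 1 ≤ d * k * k := mul_le_mul_of_nonneg_left hkr (by positivity)
  nlinarith

theorem turan_card (n t : ℕ) (ht : 2 ≤ t) :
    ((t : ℝ) - 1) / (2 * t) * n ^ 2 - t ^ 2 - 1 ≤ ((turanGraph n t).edgeFinset.card : ℝ) := by
  have htr : (2 : ℝ) ≤ t := by exact_mod_cast ht
  rw [card_edgeFinset_turanGraph]
  push_cast
  have h1 : (0 : ℝ) ≤ ((n % t).choose 2 : ℝ) := by positivity
  have h2 := Nat.lt_div_mul_add (a := (n ^ 2 - (n % t) ^ 2) * (t - 1)) (b := 2 * t) (by omega)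
  have h3 : (((n ^ 2 - (n % t) ^ 2) * (t - 1) : ℕ) : ℝ) <
      (((n ^ 2 - (n % t) ^ 2) * (t - 1) / (2 * t) : ℕ) : ℝ) * (2 * t) + 2 * t := by
    exact_mod_cast h2
  have h4 : (n % t) ^ 2 ≤ n ^ 2 := Nat.pow_le_pow_left (Nat.mod_le _ _) 2
  rw [Nat.cast_mul, Nat.cast_sub h4, Nat.cast_sub (by omega)] at h3
  push_cast at h3
  have h5 : ((n % t : ℕ) : ℝ) ^ 2 ≤ (t : ℝ) ^ 2 := by
    have : ((n % t : ℕ) : ℝ) ≤ t := by exact_mod_cast (Nat.mod_lt n (by omega)).le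
    gcongr
  set q : ℝ := (((n ^ 2 - (n % t) ^ 2) * (t - 1) / (2 * t) : ℕ) : ℝ) with hq
  set r : ℝ := ((n % t : ℕ) : ℝ) with hr
  have h6 : ((n : ℝ) ^ 2 - t ^ 2) * (t - 1) ≤ ((n : ℝ) ^ 2 - r ^ 2) * (t - 1) := by
    apply mul_le_mul_of_nonneg_right _ (by linarith)
    linarith
  have h7 : ((t : ℝ) - 1) / (2 * t) * n ^ 2 - t ^ 2 - 1 ≤ q := by
    have h8 : ((t : ℝ) - 1) / (2 * t) * n ^ 2 = ((n : ℝ) ^ 2 * (t - 1)) / (2 * t) := by
      field_simp
    rw [h8, sub_sub, sub_le_iff_le_add, div_le_iff₀ (by positivity)]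
    nlinarith
  linarith

theorem lower (t : ℕ) (ht : 2 ≤ t) (d : ℝ) (hd : 0 < d) :
    ∀ᶠ k : ℕ in atTop, (k : ℝ) ^ 2 / (2 * t * (t - 1)) - d * k ^ 2 ≤
      (invTuran k (pathGraph (2 * t + 1)) : ℝ) := by
  have htr : (2 : ℝ) ≤ t := by exact_mod_cast ht
  obtain ⟨k0, hk0⟩ := exists_nat_ge ((2 + (t : ℝ) ^ 2 + 1) / d)
  filter_upwards [eventually_ge_atTop (max k0 (2 * t + 1))] with k hk
  have hk1 : 2 * t + 1 ≤ k := le_trans (le_max_right _ _) hk
  have hkk : (k0 : ℝ) ≤ k := by exact_mod_cast le_trans (le_max_left _ _) hk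
  have hkr : 2 * (t : ℝ) + 1 ≤ k := by exact_mod_cast hk1
  have hdk : 2 + (t : ℝ) ^ 2 + 1 ≤ d * k := by
    have := hk0.trans hkk
    rw [div_le_iff₀ hd] at this
    linarith
  have h1 : (turanGraph ((k - 1) / (t - 1)) t).edgeFinset.card ≤
      invTuran k (pathGraph (2 * t + 1)) :=
    le_csSup (bdd t k ht) (turan_mem t k ht (by omega))
  have h2 : ((turanGraph ((k - 1) / (t - 1)) t).edgeFinset.card : ℝ) ≤
      (invTuran k (pathGraph (2 * t + 1)) : ℝ) := by exact_mod_cast h1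
  have h3 := turan_card ((k - 1) / (t - 1)) t ht
  set n := (k - 1) / (t - 1) with hn
  have h4 : (k : ℝ) ≤ (t - 1) * (n + 2) := by
    have h5 := Nat.lt_div_mul_add (a := k - 1) (b := t - 1) (by omega)
    rw [← hn] at h5
    have h6 : k ≤ n * (t - 1) + 2 * (t - 1) := by omega
    have h7 : (k : ℝ) ≤ n * ((t - 1 : ℕ) : ℝ) + 2 * ((t - 1 : ℕ) : ℝ) := by exact_mod_cast h6
    rw [Nat.cast_sub (by omega)] at h7
    push_cast at h7
    linarith
  have ht1 : (0 : ℝ) < t - 1 := by linarith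
  -- k ^ 2 ≤ (t-1)^2 n^2 + 4 (t-1) k
  have h8 : (k : ℝ) ^ 2 ≤ (t - 1) ^ 2 * n ^ 2 + 4 * (t - 1) * k := by
    have e1 : (0 : ℝ) ≤ k - 2 * (t - 1) := by linarith
    have e2 : (k : ℝ) - 2 * (t - 1) ≤ (t - 1) * n := by linarith
    have e3 : ((k : ℝ) - 2 * (t - 1)) ^ 2 ≤ ((t - 1) * n) ^ 2 := by gcongr
    nlinarith [sq_nonneg ((t : ℝ) - 1)]
  have h9 : (k : ℝ) ^ 2 / (2 * t * (t - 1)) ≤ ((t : ℝ) - 1) / (2 * t) * n ^ 2 + 2 * k := by
    rw [div_le_iff₀ (by positivity)]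
    have e1 : (((t : ℝ) - 1) / (2 * t) * n ^ 2 + 2 * k) * (2 * t * (t - 1)) =
        (t - 1) ^ 2 * n ^ 2 + 4 * (t - 1) * k * t := by
      field_simp
      ring
    rw [e1]
    have e2 : 4 * ((t : ℝ) - 1) * k * 1 ≤ 4 * (t - 1) * k * t := by
      apply mul_le_mul_of_nonneg_left (by linarith)
      have : (0 : ℝ) ≤ k := by positivity
      positivity
    linarith
  have h10 : (2 + (t : ℝ) ^ 2 + 1) * k ≤ d * k * k :=
    mul_le_mul_of_nonneg_right hdk (by positivity)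
  have h11 : ((t : ℝ) ^ 2 + 1) * 1 ≤ ((t : ℝ) ^ 2 + 1) * k := by
    apply mul_le_mul_of_nonneg_left (by linarith) (by positivity)
  nlinarith

/-- **Q1 of MP_69c6fe_co.** For every `t ≥ 2`, the supremum defining `ex⁻¹(k, P_{2t})` is an
attained maximum for every `k ≥ 1`, and `ex⁻¹(k, P_{2t}) = k² / (2t(t-1)) + o(k²)`. -/
theorem result : ∀ t : ℕ, 2 ≤ t →
    (∀ k : ℕ, 1 ≤ k → IsGreatest (edgeCounts (pathGraph (2 * t + 1)) k)
      (invTuran k (pathGraph (2 * t + 1)))) ∧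
    (fun k : ℕ => (invTuran k (pathGraph (2 * t + 1)) : ℝ) - (k : ℝ) ^ 2 / (2 * t * (t - 1)))
      =o[atTop] (fun k : ℕ => (k : ℝ) ^ 2) := by
  intro t ht
  refine ⟨fun k hk => isGreatest t k ht hk, ?_⟩
  rw [Asymptotics.isLittleO_iff]
  intro c hc
  have hd : 0 < min 1 (c / 10) := lt_min one_pos (by positivity)
  filter_upwards [upper t ht (min 1 (c / 10)) hd (min_le_left _ _),
    lower t ht (min 1 (c / 10)) hd] with k h1 h2
  have hc7 : min 1 (c / 10) ≤ c / 10 := min_le_right _ _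
  have hk2 : (0 : ℝ) ≤ (k : ℝ) ^ 2 := by positivity
  have h3 : min 1 (c / 10) * (k : ℝ) ^ 2 ≤ c / 10 * (k : ℝ) ^ 2 :=
    mul_le_mul_of_nonneg_right hc7 hk2
  have h4 : (0 : ℝ) ≤ c * (k : ℝ) ^ 2 := by positivity
  rw [Real.norm_eq_abs, Real.norm_eq_abs, abs_of_nonneg hk2, abs_le]
  constructor <;> linarith

end Pool.Agent.Results.MP_69c6fe_co.InvTuranEvenPath
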